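import Pool.Agent.Y768.UG.Main

/-!
# Intersection graphs over subdivisions of a fixed graph have arbitrary finite automorphism groups
-/

namespace Pool.Agent.Results.MP_f0827e_co.Universal

open Pool.Agent.Y768.UG

/-- There is a finite graph `Y` such that every finite group is the automorphism group of the
intersection graph of a finite family of connected subgraphs of a subdivision of `Y`; in fact
every finite connected graph `Y` with more edges than vertices has this property. -/
theorem result :
    (∃ (m : ℕ) (Y : SimpleGraph (Fin m)), IsUniversalOver Y) ∧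
    ∀ (m : ℕ) (Y : SimpleGraph (Fin m)), Y.Connected → m < Nat.card Y.edgeSet →
      IsUniversalOver Y := by
  have main : ∀ (m : ℕ) (Y : SimpleGraph (Fin m)), Y.Connected → m < Nat.card Y.edgeSet →
      IsUniversalOver Y := fun m Y h1 h2 G _ _ =>
    universal Y h1 (by rwa [Nat.card_eq_fintype_card, Fintype.card_fin]) G
  refine ⟨⟨4, ⊤, main 4 ⊤ SimpleGraph.connected_top ?_⟩, main⟩
  have h := SimpleGraph.card_edgeFinset_top_eq_card_choose_two (V := Fin 4)
  rw [Nat.card_eq_fintype_card, ← SimpleGraph.edgeFinset_card, h]
  decide

end Pool.Agent.Results.MP_f0827e_co.Universal
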